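import Mathlib

/-!
# From a lattice covering of `ℝ^m` by the standard simplex to integer matrices
-/

set_option autoImplicit false

namespace Pool.Agent.LCV

open Finset

/-- The entrywise integer part of `s * C`. -/
noncomputable def flo {m : ℕ} (C : Matrix (Fin m) (Fin m) ℝ) (s : ℕ) :
    Matrix (Fin m) (Fin m) ℤ := fun i j => ⌊(s : ℝ) * C i j⌋

theorem flo_le {m : ℕ} (C : Matrix (Fin m) (Fin m) ℝ) (s : ℕ) (i j : Fin m) :
    |((flo C s i j : ℤ) : ℝ) - s * C i j| ≤ 1 := by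
  have h1 := Int.floor_le ((s : ℝ) * C i j)
  have h2 := Int.lt_floor_add_one ((s : ℝ) * C i j)
  unfold flo
  rw [abs_le]
  constructor <;> linarith

/-- If the translates of the standard simplex by the lattice spanned by the columns of `C` cover
`ℝ^m`, then for large `s` the translates by the lattice spanned by the columns of `flo C s` of the
integer points of the simplex of size `s + K` cover `ℤ^m`, with `K` a constant. -/
theorem discretise {m : ℕ} (C : Matrix (Fin m) (Fin m) ℝ) (hC : C.det ≠ 0)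
    (hcov : ∀ x : Fin m → ℝ, ∃ n : Fin m → ℤ, (∀ i, 0 ≤ x i - ∑ j, C i j * (n j : ℝ)) ∧
      ∑ i, (x i - ∑ j, C i j * (n j : ℝ)) ≤ 1) :
    ∃ K s0 : ℕ, ∀ s : ℕ, s0 ≤ s → (flo C s).det ≠ 0 → ∀ z : Fin m → ℤ, ∃ n : Fin m → ℤ,
      (∀ i, 0 ≤ z i - ∑ j, flo C s i j * n j) ∧
        ∑ i, (z i - ∑ j, flo C s i j * n j) ≤ ((s + K : ℕ) : ℤ) := by
  classical
  obtain ⟨N, hN⟩ := exists_nat_ge (1 + 2 * ∑ j, ∑ i, |C⁻¹ j i|)
  have hCinv : C⁻¹ * C = 1 := Matrix.nonsing_inv_mul C (Ne.isUnit hC)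
  set K0 : ℕ := m * (1 + N) with hK0
  refine ⟨2 * m * K0, K0 + 1, fun s hs hdet z => ?_⟩
  have hs1 : (0 : ℝ) < s := by
    have : 0 < s := by omega
    exact_mod_cast this
  have hsK : (K0 : ℝ) / s ≤ 1 := by
    rw [div_le_one hs1]
    have : K0 ≤ s := by omega
    exact_mod_cast this
  have hsK0 : 0 ≤ (K0 : ℝ) / s := by positivity
  set R : Matrix (Fin m) (Fin m) ℝ := (flo C s).map (Int.cast : ℤ → ℝ) with hR
  have hRdet : R.det ≠ 0 := by
    have h1 : ((flo C s).det : ℝ) = R.det := Int.cast_det (flo C s)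
    rw [← h1]
    exact_mod_cast hdet
  -- the fractional part
  set c : Fin m → ℝ := R⁻¹.mulVec (fun i => (z i : ℝ)) with hc
  have hRc : R.mulVec c = fun i => (z i : ℝ) := by
    rw [hc, Matrix.mulVec_mulVec, Matrix.mul_nonsing_inv R (Ne.isUnit hRdet), Matrix.one_mulVec]
  set u : Fin m → ℝ := fun i => Int.fract (c i) with hu
  have hu0 : ∀ i, 0 ≤ u i := fun i => Int.fract_nonneg _
  have hu1 : ∀ i, u i ≤ 1 := fun i => (Int.fract_lt_one _).le
  obtain ⟨n, hn0, hn1⟩ := hcov (fun i => ∑ j, C i j * u j - (K0 : ℝ) / s)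
  obtain ⟨y, hy⟩ : ∃ y : Fin m → ℝ, ∀ i, y i = ∑ j, C i j * u j - (K0 : ℝ) / s -
      ∑ j, C i j * (n j : ℝ) := ⟨_, fun i => rfl⟩
  have hy0 : ∀ i, 0 ≤ y i := fun i => by rw [hy]; exact hn0 i
  have hysum : ∑ i, y i ≤ 1 := by
    rw [Finset.sum_congr rfl fun i _ => hy i]
    exact hn1
  have hy1 : ∀ i, y i ≤ 1 := fun i =>
    (Finset.single_le_sum (fun j _ => hy0 j) (Finset.mem_univ i)).trans hysum
  -- the bound for `n`
  have hdiff : ∀ i, ∑ j, C i j * (u j - (n j : ℝ)) = y i + (K0 : ℝ) / s := by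
    intro i
    rw [hy i]
    simp only [mul_sub, Finset.sum_sub_distrib]
    ring
  have hnu : ∀ j, u j - (n j : ℝ) = ∑ i, C⁻¹ j i * (y i + (K0 : ℝ) / s) := by
    intro j
    have h1 : (C⁻¹.mulVec (C.mulVec fun j => u j - (n j : ℝ))) j = u j - (n j : ℝ) := by
      rw [Matrix.mulVec_mulVec, hCinv, Matrix.one_mulVec]
    rw [← h1]
    simp only [Matrix.mulVec, dotProduct]
    refine Finset.sum_congr rfl fun i _ => ?_
    rw [hdiff i]
  have hbd : ∀ j, |u j - (n j : ℝ)| ≤ 1 + N := by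
    intro j
    rw [hnu j]
    have h2 : |∑ i, C⁻¹ j i * (y i + (K0 : ℝ) / s)| ≤ ∑ i, |C⁻¹ j i| * 2 := by
      refine (Finset.abs_sum_le_sum_abs _ _).trans (Finset.sum_le_sum fun i _ => ?_)
      rw [abs_mul]
      refine mul_le_mul_of_nonneg_left ?_ (abs_nonneg _)
      rw [abs_le]
      constructor <;> linarith [hy0 i, hy1 i]
    have h3 : ∑ i, |C⁻¹ j i| * 2 ≤ 2 * ∑ j, ∑ i, |C⁻¹ j i| := by
      rw [← Finset.sum_mul, mul_comm]
      refine mul_le_mul_of_nonneg_left ?_ (by norm_num)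
      exact Finset.single_le_sum (f := fun j => ∑ i, |C⁻¹ j i|)
        (fun j _ => Finset.sum_nonneg fun i _ => abs_nonneg _) (Finset.mem_univ j)
    linarith
  -- the choice
  refine ⟨fun j => ⌊c j⌋ + n j, ?_⟩
  have key : ∀ i, ((z i - ∑ j, flo C s i j * (⌊c j⌋ + n j) : ℤ) : ℝ) =
      s * y i + K0 + ∑ j, (((flo C s i j : ℤ) : ℝ) - s * C i j) * (u j - (n j : ℝ)) := by
    intro i
    have h1 : (z i : ℝ) = ∑ j, ((flo C s i j : ℤ) : ℝ) * c j := by
      have := congrFun hRc i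
      rw [← this]
      rfl
    have h2 : s * y i + K0 = ∑ j, (s * C i j) * (u j - (n j : ℝ)) := by
      have h3 := hdiff i
      have h4 : ∑ j, (s * C i j) * (u j - (n j : ℝ)) = s * ∑ j, C i j * (u j - (n j : ℝ)) := by
        rw [Finset.mul_sum]
        exact Finset.sum_congr rfl fun j _ => by ring
      rw [h4, h3, mul_add, mul_div_cancel₀ _ hs1.ne']
    rw [h2, ← Finset.sum_add_distrib]
    push_cast
    rw [h1, ← Finset.sum_sub_distrib]
    refine Finset.sum_congr rfl fun j _ => ?_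
    have h5 : u j = c j - ⌊c j⌋ := rfl
    rw [h5]
    ring
  have herr : ∀ i, |∑ j, (((flo C s i j : ℤ) : ℝ) - s * C i j) * (u j - (n j : ℝ))| ≤ K0 := by
    intro i
    refine (Finset.abs_sum_le_sum_abs _ _).trans ?_
    have h1 : ∀ j ∈ (Finset.univ : Finset (Fin m)),
        |(((flo C s i j : ℤ) : ℝ) - s * C i j) * (u j - (n j : ℝ))| ≤ 1 + N := by
      intro j _
      rw [abs_mul]
      have h2 := flo_le C s i j
      have h3 := hbd j
      calc _ ≤ 1 * (1 + (N : ℝ)) := mul_le_mul h2 h3 (abs_nonneg _) (by norm_num)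
        _ = 1 + N := one_mul _
    refine (Finset.sum_le_sum h1).trans ?_
    rw [Finset.sum_const, Finset.card_univ, Fintype.card_fin, nsmul_eq_mul, hK0]
    push_cast
    exact le_refl _
  constructor
  · intro i
    have h1 := key i
    have h2 := (abs_le.1 (herr i)).1
    have h3 : 0 ≤ s * y i := mul_nonneg hs1.le (hy0 i)
    have h4 : (0 : ℝ) ≤ ((z i - ∑ j, flo C s i j * (⌊c j⌋ + n j) : ℤ) : ℝ) := by
      rw [h1]
      linarith
    exact_mod_cast h4
  · have h1 : ((∑ i, (z i - ∑ j, flo C s i j * (⌊c j⌋ + n j)) : ℤ) : ℝ) ≤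
        (((s + 2 * m * K0 : ℕ) : ℤ) : ℝ) := by
      have h5 : ((∑ i, (z i - ∑ j, flo C s i j * (⌊c j⌋ + n j)) : ℤ) : ℝ) =
          ∑ i, ((z i - ∑ j, flo C s i j * (⌊c j⌋ + n j) : ℤ) : ℝ) := by
        push_cast
        rfl
      rw [h5]
      have h2 : ∀ i ∈ (Finset.univ : Finset (Fin m)),
          ((z i - ∑ j, flo C s i j * (⌊c j⌋ + n j) : ℤ) : ℝ) ≤ s * y i + 2 * K0 := by
        intro i _
        rw [key i]
        have h3 := (abs_le.1 (herr i)).2
        linarith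
      refine (Finset.sum_le_sum h2).trans ?_
      rw [Finset.sum_add_distrib, ← Finset.mul_sum, Finset.sum_const, Finset.card_univ,
        Fintype.card_fin, nsmul_eq_mul]
      have h4 : s * ∑ i, y i ≤ s * 1 := mul_le_mul_of_nonneg_left hysum hs1.le
      push_cast
      have h6 : (m : ℝ) * (2 * K0) = 2 * m * K0 := by ring
      linarith
    exact_mod_cast h1

end Pool.Agent.LCV
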