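import Mathlib
import Pool.Agent.Lib_helper56.UB.BasisDef

/-!
# The quotient of `ℤ^m` by the columns of an integer matrix
-/

set_option autoImplicit false

namespace Pool.Agent.LCV

open Finset Pool.Agent.Lib_helper56.UB

/-- The subgroup generated by the columns of `R`. -/
abbrev colMod {m : ℕ} (R : Matrix (Fin m) (Fin m) ℤ) : Submodule ℤ (Fin m → ℤ) :=
  LinearMap.range R.mulVecLin

theorem card_colMod {m : ℕ} (R : Matrix (Fin m) (Fin m) ℤ) (hR : R.det ≠ 0) :
    Nat.card ((Fin m → ℤ) ⧸ colMod R) = R.det.natAbs := by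
  classical
  have hinj : Function.Injective R.mulVecLin := Matrix.mulVec_injective_of_det_ne_zero hR
  obtain ⟨e, he⟩ : ∃ e : (Fin m → ℤ) ≃ₗ[ℤ] colMod R, ∀ x, (e x : Fin m → ℤ) = R.mulVec x :=
    ⟨LinearEquiv.ofInjective R.mulVecLin hinj, fun x => rfl⟩
  have h1 := Submodule.natAbs_det_basis_change (Pi.basisFun ℤ (Fin m)) (colMod R)
    ((Pi.basisFun ℤ (Fin m)).map e)
  rw [← h1, Module.Basis.det_apply]
  congr 2
  ext i j
  have h2 : (Subtype.val ∘ ⇑((Pi.basisFun ℤ (Fin m)).map e)) j = R.mulVec (Pi.single j 1) := by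
    rw [Function.comp_apply, Module.Basis.map_apply, Pi.basisFun_apply, he]
  rw [Module.Basis.toMatrix_apply, Pi.basisFun_repr, h2, Matrix.mulVec_single_one]
  rfl

/-- `F * |G| ≤ C(m+T, T)` for every finite abelian group `G` with a `T`-basis of at most `m`
elements. -/
def GroupBound (m T : ℕ) (F : ℝ) : Prop :=
  ∀ (G : Type) [AddCommGroup G] [Finite G] (A : Finset G), A.card ≤ m → IsBasis A T →
    F * Nat.card G ≤ (m + T).choose T

theorem bound_of_cover {m T : ℕ} {F : ℝ} (hF : GroupBound m T F)
    (R : Matrix (Fin m) (Fin m) ℤ) (hR : R.det ≠ 0)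
    (hcov : ∀ z : Fin m → ℤ, ∃ n : Fin m → ℤ, (∀ i, 0 ≤ z i - ∑ j, R i j * n j) ∧
      ∑ i, (z i - ∑ j, R i j * n j) ≤ (T : ℤ)) :
    F * |(R.det : ℝ)| ≤ (m + T).choose T := by
  classical
  have hcard := card_colMod R hR
  let G := (Fin m → ℤ) ⧸ colMod R
  have : Finite G := by
    refine Nat.finite_of_card_ne_zero ?_
    rw [hcard]
    simpa using hR
  let g : Fin m → G := fun i => Submodule.Quotient.mk (Pi.single i (1 : ℤ))
  have h1 := hF G (Finset.univ.image g) (Finset.card_image_le.trans (by simp)) ?_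
  · have h2 : (Nat.card G : ℝ) = |(R.det : ℝ)| := by
      rw [hcard, Nat.cast_natAbs, Int.cast_abs]
    rw [h2] at h1
    exact h1
  · intro x
    obtain ⟨z, rfl⟩ := Submodule.Quotient.mk_surjective _ x
    obtain ⟨n, hn0, hn1⟩ := hcov z
    refine ⟨∑ i, Multiset.replicate (z i - ∑ j, R i j * n j).toNat (g i), ?_, ?_, ?_⟩
    · intro y hy
      rw [Multiset.mem_sum] at hy
      obtain ⟨i, -, hi⟩ := hy
      rw [Multiset.eq_of_mem_replicate hi]
      exact Finset.mem_image_of_mem _ (Finset.mem_univ i)
    · rw [Multiset.card_sum]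
      simp only [Multiset.card_replicate]
      have h2 : ((∑ i, (z i - ∑ j, R i j * n j).toNat : ℕ) : ℤ) ≤ T := by
        push_cast
        refine le_trans (le_of_eq ?_) hn1
        refine Finset.sum_congr rfl fun i _ => ?_
        exact Int.toNat_of_nonneg (hn0 i)
      exact_mod_cast h2
    · rw [Multiset.sum_sum]
      simp only [Multiset.sum_replicate]
      have h2 : ∑ i, (z i - ∑ j, R i j * n j).toNat • g i =
          Submodule.Quotient.mk (p := colMod R) (z - R.mulVec n) := by
        have h3 : ∀ i ∈ (Finset.univ : Finset (Fin m)),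
            (z i - ∑ j, R i j * n j).toNat • g i = Submodule.Quotient.mk (p := colMod R)
              (Pi.single i (z i - ∑ j, R i j * n j)) := by
          intro i _
          rw [← natCast_zsmul, Int.toNat_of_nonneg (hn0 i)]
          simp only [g]
          rw [← Submodule.Quotient.mk_smul]
          congr 1
          rw [← Pi.single_smul]
          simp
        rw [Finset.sum_congr rfl h3]
        have h4 : z - R.mulVec n = ∑ i, (Pi.single i (z i - ∑ j, R i j * n j) : Fin m → ℤ) := by
          have h5 : z - R.mulVec n = fun i => z i - ∑ j, R i j * n j := rfl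
          rw [h5]
          exact (Finset.univ_sum_single _).symm
        rw [h4]
        exact (map_sum (colMod R).mkQ _ _).symm
      rw [h2, Submodule.Quotient.eq]
      refine ⟨-n, ?_⟩
      rw [Matrix.mulVecLin_apply, Matrix.mulVec_neg]
      abel

end Pool.Agent.LCV
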