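import Mathlib
import Pool.Agent.LCV.Disc
import Pool.Agent.LCV.Quot

/-!
# The limit `s → ∞`
-/

set_option autoImplicit false

namespace Pool.Agent.LCV

open Finset Filter Topology

theorem tendsto_det {m : ℕ} (C : Matrix (Fin m) (Fin m) ℝ) :
    Tendsto (fun s : ℕ => ((flo C s).det : ℝ) / (s : ℝ) ^ m) atTop (𝓝 C.det) := by
  classical
  have h1 : ∀ i j, Tendsto (fun s : ℕ => ((flo C s i j : ℤ) : ℝ) / (s : ℝ)) atTop
      (𝓝 (C i j)) := by
    intro i j
    have h2 : Tendsto (fun s : ℕ => C i j - 1 / (s : ℝ)) atTop (𝓝 (C i j - 0)) :=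
      tendsto_const_nhds.sub (tendsto_const_div_atTop_nhds_zero_nat 1)
    have h3 : Tendsto (fun s : ℕ => C i j + 1 / (s : ℝ)) atTop (𝓝 (C i j + 0)) :=
      tendsto_const_nhds.add (tendsto_const_div_atTop_nhds_zero_nat 1)
    rw [sub_zero] at h2
    rw [add_zero] at h3
    refine tendsto_of_tendsto_of_tendsto_of_le_of_le' h2 h3 ?_ ?_
    · filter_upwards [eventually_gt_atTop 0] with s hs
      have hs0 : (0 : ℝ) < s := by exact_mod_cast hs
      have h4 := (abs_le.1 (flo_le C s i j)).1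
      rw [le_div_iff₀ hs0, sub_mul, one_div, inv_mul_cancel₀ hs0.ne']
      linarith
    · filter_upwards [eventually_gt_atTop 0] with s hs
      have hs0 : (0 : ℝ) < s := by exact_mod_cast hs
      have h4 := (abs_le.1 (flo_le C s i j)).2
      rw [div_le_iff₀ hs0, add_mul, one_div, inv_mul_cancel₀ hs0.ne']
      linarith
  have h2 : Tendsto (fun s : ℕ => (Matrix.of fun i j => ((flo C s i j : ℤ) : ℝ) / (s : ℝ)).det)
      atTop (𝓝 C.det) := by
    have h3 : Continuous fun M : Matrix (Fin m) (Fin m) ℝ => M.det :=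
      Continuous.matrix_det continuous_id
    refine (h3.tendsto C).comp ?_
    exact tendsto_pi_nhds.2 fun i => tendsto_pi_nhds.2 fun j => h1 i j
  refine h2.congr' ?_
  filter_upwards [eventually_gt_atTop 0] with s hs
  have hs0 : (s : ℝ) ≠ 0 := by
    have : (0 : ℝ) < s := by exact_mod_cast hs
    exact this.ne'
  have h3 : (Matrix.of fun i j => ((flo C s i j : ℤ) : ℝ) / (s : ℝ)) =
      (s : ℝ)⁻¹ • ((flo C s).map (Int.cast : ℤ → ℝ)) := by
    ext i j
    simp [div_eq_inv_mul]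
  rw [h3, Matrix.det_smul, Fintype.card_fin]
  have h4 : ((flo C s).det : ℝ) = ((flo C s).map (Int.cast : ℤ → ℝ)).det := Int.cast_det (flo C s)
  rw [h4, div_eq_inv_mul, inv_pow]

theorem core {m : ℕ} {F : ℝ} (hF : ∀ᶠ s : ℕ in atTop, GroupBound m s F)
    (C : Matrix (Fin m) (Fin m) ℝ) (hC : C.det ≠ 0)
    (hcov : ∀ x : Fin m → ℝ, ∃ n : Fin m → ℤ, (∀ i, 0 ≤ x i - ∑ j, C i j * (n j : ℝ)) ∧
      ∑ i, (x i - ∑ j, C i j * (n j : ℝ)) ≤ 1) :
    F * |C.det| ≤ 1 / (m.factorial : ℝ) := by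
  classical
  obtain ⟨K, s0, hK⟩ := discretise C hC hcov
  have hdet := tendsto_det C
  have hleft : Tendsto (fun s : ℕ => F * |((flo C s).det : ℝ) / (s : ℝ) ^ m|) atTop
      (𝓝 (F * |C.det|)) := tendsto_const_nhds.mul hdet.abs
  have hright : Tendsto (fun s : ℕ => ((1 + ((m + K : ℕ) : ℝ) / (s : ℝ)) ^ m) /
      (m.factorial : ℝ)) atTop (𝓝 ((1 + 0) ^ m / (m.factorial : ℝ))) := by
    have h1 : Tendsto (fun s : ℕ => 1 + ((m + K : ℕ) : ℝ) / (s : ℝ)) atTop (𝓝 (1 + 0)) :=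
      tendsto_const_nhds.add (tendsto_const_div_atTop_nhds_zero_nat _)
    exact (h1.pow m).div_const _
  rw [add_zero, one_pow] at hright
  refine le_of_tendsto_of_tendsto hleft hright ?_
  have hne : ∀ᶠ s : ℕ in atTop, ((flo C s).det : ℝ) / (s : ℝ) ^ m ≠ 0 :=
    hdet.eventually_ne hC
  have hFK : ∀ᶠ s : ℕ in atTop, GroupBound m (s + K) F :=
    (tendsto_add_atTop_nat K).eventually hF
  filter_upwards [hne, hFK, eventually_ge_atTop s0, eventually_gt_atTop 0] with s h1 h2 h3 h4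
  have hs0 : (0 : ℝ) < s := by exact_mod_cast h4
  have hdet0 : (flo C s).det ≠ 0 := by
    intro h5
    rw [h5] at h1
    simp at h1
  have h6 := bound_of_cover h2 (flo C s) hdet0 (hK s h3 hdet0)
  have h8 : (((m + (s + K)).choose (s + K) : ℕ) : ℝ) ≤
      ((s : ℝ) + ((m + K : ℕ) : ℝ)) ^ m / (m.factorial : ℝ) := by
    rw [← Nat.choose_symm_add]
    have h9 := Nat.choose_le_pow_div (α := ℝ) m (m + (s + K))
    refine h9.trans (le_of_eq ?_)
    push_cast
    ring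
  rw [abs_div, abs_of_nonneg (pow_nonneg hs0.le m), ← mul_div_assoc,
    div_le_iff₀ (pow_pos hs0 m)]
  refine (h6.trans h8).trans (le_of_eq ?_)
  have h10 : (s : ℝ) + ((m + K : ℕ) : ℝ) = (1 + ((m + K : ℕ) : ℝ) / (s : ℝ)) * s := by
    rw [add_mul, one_mul, div_mul_cancel₀ _ hs0.ne']
  rw [h10, mul_pow]
  ring

end Pool.Agent.LCV
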