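import Mathlib

/-!
# The volume of a simplex (lower bound)
-/

set_option autoImplicit false

namespace Pool.Agent.LCV

open MeasureTheory

/-- The simplex with the vertices `0, e_1, ..., e_m`. -/
def simp0 (m : ℕ) : Set (Fin m → ℝ) := {y | (∀ i, 0 ≤ y i) ∧ ∑ i, y i ≤ 1}

/-- The sign `1` or `-1`. -/
noncomputable def sg (b : Bool) : ℝ := if b then 1 else -1

theorem abs_sg (b : Bool) : |sg b| = 1 := by
  cases b <;> simp [sg]

theorem vol_image_sign {m : ℕ} (σ : Fin m → Bool) (S : Set (Fin m → ℝ)) :
    volume ((fun y : Fin m → ℝ => fun i => sg (σ i) * y i) '' S) = volume S := by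
  have h1 : (fun y : Fin m → ℝ => fun i => sg (σ i) * y i) =
      ⇑(Matrix.toLin' (Matrix.diagonal fun i => sg (σ i))) := by
    ext y i
    simp [Matrix.mulVec_diagonal]
  rw [h1, Measure.addHaar_image_linearMap, LinearMap.det_toLin', Matrix.det_diagonal,
    Finset.abs_prod]
  simp [abs_sg]

theorem vol_simp0 (m : ℕ) : ENNReal.ofReal (1 / (m.factorial : ℝ)) ≤ volume (simp0 m) := by
  have h1 := MeasureTheory.volume_sum_rpow_lt_one (Fin m) (p := 1) le_rfl
  have h2 : (2 * Real.Gamma (1 / 1 + 1)) ^ Fintype.card (Fin m) /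
      Real.Gamma (Fintype.card (Fin m) / 1 + 1) = 2 ^ m * (1 / (m.factorial : ℝ)) := by
    rw [Fintype.card_fin, div_one, div_one, Real.Gamma_nat_eq_factorial]
    have h3 : Real.Gamma (1 + 1) = 1 := by
      have := Real.Gamma_nat_eq_factorial 1
      norm_num at this ⊢
    rw [h3]
    ring
  rw [h2] at h1
  have hsub : {x : Fin m → ℝ | ∑ i, |x i| ^ (1 : ℝ) < 1} ⊆ ⋃ σ : Fin m → Bool,
      (fun y : Fin m → ℝ => fun i => sg (σ i) * y i) '' simp0 m := by
    intro x hx
    have hx' : ∑ i, |x i| ^ (1 : ℝ) < 1 := hx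
    simp only [Real.rpow_one] at hx'
    rw [Set.mem_iUnion]
    refine ⟨fun i => decide (0 ≤ x i), fun i => |x i|, ⟨fun i => abs_nonneg _, hx'.le⟩, ?_⟩
    ext i
    by_cases h : 0 ≤ x i
    · simp [sg, h, abs_of_nonneg h]
    · simp [sg, h, abs_of_neg (not_le.1 h)]
  have h3 := (measure_mono (μ := volume) hsub).trans (measure_iUnion_fintype_le _ _)
  rw [h1] at h3
  simp only [vol_image_sign, Finset.sum_const, Finset.card_univ, Fintype.card_pi,
    Fintype.card_bool, Finset.prod_const, Fintype.card_fin, nsmul_eq_mul] at h3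
  rw [ENNReal.ofReal_mul (by positivity)] at h3
  have h4 : ENNReal.ofReal ((2 : ℝ) ^ m) = ((2 ^ m : ℕ) : ENNReal) := by
    rw [← ENNReal.ofReal_natCast]
    push_cast
    rfl
  rw [h4] at h3
  refine (ENNReal.mul_le_mul_iff_right ?_ ?_).1 h3
  · simp
  · exact ENNReal.natCast_ne_top _

/-- The edge vectors of the simplex with vertices `p 0, ..., p m`, as the columns of a matrix. -/
noncomputable def edges {m : ℕ} (p : Fin (m + 1) → Fin m → ℝ) : Matrix (Fin m) (Fin m) ℝ :=
  Matrix.of fun i j => p j.succ i - p 0 i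

theorem hull_eq {m : ℕ} (p : Fin (m + 1) → Fin m → ℝ) :
    convexHull ℝ (Set.range p) = (fun y => p 0 + (edges p).mulVec y) '' simp0 m := by
  apply Set.Subset.antisymm
  · apply convexHull_min
    · rintro _ ⟨i, rfl⟩
      refine Fin.cases ?_ (fun j => ?_) i
      · exact ⟨0, ⟨fun i => le_rfl, by simp⟩, by simp⟩
      · refine ⟨Pi.single j 1, ⟨fun i => ?_, ?_⟩, ?_⟩
        · by_cases h : i = j
          · subst h
            simp
          · simp [h]
        · rw [Finset.sum_pi_single']
          simp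
        · simp only [Matrix.mulVec_single_one]
          ext i
          simp [edges, Matrix.col]
    · rintro _ ⟨y, ⟨hy0, hy1⟩, rfl⟩ _ ⟨z, ⟨hz0, hz1⟩, rfl⟩ a b ha hb hab
      refine ⟨a • y + b • z, ⟨fun i => ?_, ?_⟩, ?_⟩
      · have := mul_nonneg ha (hy0 i)
        have := mul_nonneg hb (hz0 i)
        simp only [Pi.add_apply, Pi.smul_apply, smul_eq_mul]
        linarith
      · simp only [Pi.add_apply, Pi.smul_apply, smul_eq_mul, Finset.sum_add_distrib,
          ← Finset.mul_sum]
        have h1 := mul_le_mul_of_nonneg_left hy1 ha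
        have h2 := mul_le_mul_of_nonneg_left hz1 hb
        linarith
      · simp only [Matrix.mulVec_add, Matrix.mulVec_smul, smul_add]
        have h3 : p 0 = a • p 0 + b • p 0 := by rw [← add_smul, hab, one_smul]
        conv_lhs => rw [h3]
        abel
  · rintro _ ⟨y, ⟨hy0, hy1⟩, rfl⟩
    have h1 : p 0 + (edges p).mulVec y =
        ∑ i : Fin (m + 1), (Fin.cons (1 - ∑ j, y j) y : Fin (m + 1) → ℝ) i • p i := by
      rw [Fin.sum_univ_succ]
      simp only [Fin.cons_zero, Fin.cons_succ]
      ext i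
      simp only [Pi.add_apply, Matrix.mulVec, dotProduct, edges, Matrix.of_apply, Pi.smul_apply,
        Finset.sum_apply, smul_eq_mul, sub_mul, Finset.sum_sub_distrib, one_mul, Finset.sum_mul,
        ← Finset.mul_sum]
      have h2 : ∑ x, p 0 i * y x = ∑ x, y x * p 0 i := Finset.sum_congr rfl fun x _ => mul_comm _ _
      have h3 : ∑ x : Fin m, p x.succ i * y x = ∑ x : Fin m, y x * p x.succ i :=
        Finset.sum_congr rfl fun x _ => mul_comm _ _
      simp only [Finset.mul_sum] at *
      rw [h2, h3]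
      ring
    show p 0 + (edges p).mulVec y ∈ _
    rw [h1]
    refine (convex_convexHull ℝ (Set.range p)).sum_mem ?_ ?_ fun i _ =>
      subset_convexHull ℝ _ ⟨i, rfl⟩
    · intro i _
      refine Fin.cases ?_ (fun j => ?_) i
      · simp only [Fin.cons_zero]
        linarith
      · simp only [Fin.cons_succ]
        exact hy0 j
    · rw [Fin.sum_univ_succ]
      simp

theorem det_edges_ne {m : ℕ} (p : Fin (m + 1) → Fin m → ℝ) (hp : AffineIndependent ℝ p) :
    (edges p).det ≠ 0 := by
  classical
  have h1 := (affineIndependent_iff_linearIndependent_vsub ℝ p 0).1 hp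
  have h2 : LinearIndependent ℝ fun j : Fin m => p j.succ - p 0 := by
    have h3 := h1.comp (fun j : Fin m => (⟨j.succ, Fin.succ_ne_zero j⟩ : {x // x ≠ (0 : Fin (m + 1))}))
      (by
        intro a b hab
        simpa using hab)
    exact h3
  have h3 : IsUnit (edges p) := by
    rw [← Matrix.linearIndependent_cols_iff_isUnit]
    have h4 : (edges p).col = fun j : Fin m => p j.succ - p 0 := by
      ext j i
      simp [edges, Matrix.col]
    rw [h4]
    exact h2
  exact ((Matrix.isUnit_iff_isUnit_det _).1 h3).ne_zero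

theorem vol_hull {m : ℕ} (p : Fin (m + 1) → Fin m → ℝ) :
    |(edges p).det| * (1 / (m.factorial : ℝ)) ≤ volume.real (convexHull ℝ (Set.range p)) := by
  have h1 : convexHull ℝ (Set.range p) =
      (fun x => p 0 + x) '' ((Matrix.toLin' (edges p)) '' simp0 m) := by
    rw [hull_eq, Set.image_image]
    rfl
  have h2 : volume (convexHull ℝ (Set.range p)) =
      ENNReal.ofReal |(edges p).det| * volume (simp0 m) := by
    rw [h1, Set.image_add_left, measure_preimage_add, Measure.addHaar_image_linearMap,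
      LinearMap.det_toLin']
  have h3 : volume (convexHull ℝ (Set.range p)) < ⊤ :=
    ((Set.finite_range p).isCompact_convexHull ℝ).measure_lt_top
  rw [Measure.real, ← ENNReal.ofReal_le_iff_le_toReal h3.ne, h2,
    ENNReal.ofReal_mul (abs_nonneg _)]
  exact mul_le_mul_right (vol_simp0 m) _

end Pool.Agent.LCV
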