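import Mathlib
import Pool.Agent.LCV.Limit
import Pool.Agent.LCV.Vol

/-!
# Lattice coverings of `ℝ^m` by a simplex
-/

set_option autoImplicit false

namespace Pool.Agent.LCV

open MeasureTheory

/-- If `F * |G| ≤ C(m+s, s)` for all large `s` and all finite abelian groups `G` with an `s`-basis
of at most `m` elements then the density of every lattice covering of `ℝ^m` by an `m`-simplex is
at least `F`. -/
theorem lattice_covering {m : ℕ} {F : ℝ} (hF : ∀ᶠ s : ℕ in Filter.atTop, GroupBound m s F)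
    (L : Submodule ℤ (Fin m → ℝ)) [DiscreteTopology L] [IsZLattice ℝ L]
    (p : Fin (m + 1) → Fin m → ℝ) (hp : AffineIndependent ℝ p)
    (hcov : ∀ x : Fin m → ℝ, ∃ v ∈ L, x - v ∈ convexHull ℝ (Set.range p)) :
    F * ZLattice.covolume L ≤ volume.real (convexHull ℝ (Set.range p)) := by
  classical
  let b := IsZLattice.basis L
  let B : Matrix (Fin m) (Fin m) ℝ := Matrix.of fun i j => (b j : Fin m → ℝ) i
  have hB : ZLattice.covolume L = |B.det| := by
    rw [ZLattice.covolume_eq_det L b, ← Matrix.det_transpose]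
    rfl
  have hB0 : B.det ≠ 0 := by
    intro h
    rw [h, abs_zero] at hB
    exact ZLattice.covolume_ne_zero L volume hB
  have hQ := det_edges_ne p hp
  set Q := edges p with hQdef
  have hQQ : Q⁻¹ * Q = 1 := Matrix.nonsing_inv_mul Q (Ne.isUnit hQ)
  let C : Matrix (Fin m) (Fin m) ℝ := Q⁻¹ * B
  have hdet : Q.det * C.det = B.det := by
    rw [← Matrix.det_mul, ← Matrix.mul_assoc, Matrix.mul_nonsing_inv Q (Ne.isUnit hQ),
      Matrix.one_mul]
  have hC0 : C.det ≠ 0 := by
    intro h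
    rw [h, mul_zero] at hdet
    exact hB0 hdet.symm
  have hcovC : ∀ x : Fin m → ℝ, ∃ n : Fin m → ℤ,
      (∀ i, 0 ≤ x i - ∑ j, C i j * (n j : ℝ)) ∧ ∑ i, (x i - ∑ j, C i j * (n j : ℝ)) ≤ 1 := by
    intro x
    obtain ⟨v, hv, hx⟩ := hcov (p 0 + Q.mulVec x)
    rw [hull_eq] at hx
    obtain ⟨y, hy, hxy⟩ := hx
    have h1 : v = B.mulVec fun j => ((b.repr ⟨v, hv⟩ j : ℤ) : ℝ) := by
      have h2 : ((∑ i, (b.repr ⟨v, hv⟩) i • b i : L) : Fin m → ℝ) = v :=
        congrArg (Subtype.val) (b.sum_repr ⟨v, hv⟩)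
      refine h2.symm.trans ?_
      ext i
      simp only [Matrix.mulVec, dotProduct, B, Matrix.of_apply, AddSubmonoidClass.coe_finsetSum,
        Finset.sum_apply]
      refine Finset.sum_congr rfl fun j _ => ?_
      simp [mul_comm]
    refine ⟨fun j => b.repr ⟨v, hv⟩ j, ?_⟩
    have h3 : ∀ i, x i - ∑ j, C i j * ((b.repr ⟨v, hv⟩ j : ℤ) : ℝ) = y i := by
      have h4 : Q.mulVec y = Q.mulVec x - B.mulVec fun j => ((b.repr ⟨v, hv⟩ j : ℤ) : ℝ) := by
        rw [← h1]
        have h5 : p 0 + Q.mulVec y = p 0 + Q.mulVec x - v := hxy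
        have h6 := congrArg (fun w => w - p 0) h5
        simp only [add_sub_cancel_left] at h6
        rw [h6]
        abel
      have h7 : y = x - C.mulVec fun j => ((b.repr ⟨v, hv⟩ j : ℤ) : ℝ) := by
        have h8 := congrArg (Q⁻¹.mulVec) h4
        rw [Matrix.mulVec_sub, Matrix.mulVec_mulVec, Matrix.mulVec_mulVec, Matrix.mulVec_mulVec,
          hQQ, Matrix.one_mulVec, Matrix.one_mulVec] at h8
        exact h8
      intro i
      rw [h7]
      rfl
    refine ⟨fun i => ?_, ?_⟩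
    · rw [h3]
      exact hy.1 i
    · rw [Finset.sum_congr rfl fun i _ => h3 i]
      exact hy.2
  have h9 := core hF C hC0 hcovC
  refine le_trans ?_ (vol_hull p)
  rw [hB, ← hdet, abs_mul]
  calc F * (|Q.det| * |C.det|) = |Q.det| * (F * |C.det|) := by ring
    _ ≤ |Q.det| * (1 / (m.factorial : ℝ)) := mul_le_mul_of_nonneg_left h9 (abs_nonneg _)

end Pool.Agent.LCV
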